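import Pool.Agent.helper4.EC.Spec

set_option autoImplicit false

namespace Pool.Agent.helper4.EC

open Finset

universe u

theorem W2 (h1 : W1_stmt.{u}) : W2_stmt.{u} := by
  intro V _ G hG k w hw
  have key : ∀ i j, i < j → j ≤ k → w i ≠ w j := by
    intro i j hij hj
    rcases Nat.lt_or_ge (i + 1) j with h | h
    · exact (h1 V G hG k w hw i j (by omega) hj).1
    · have : j = i + 1 := by omega
      subst this
      exact (hw.1 i (by omega)).ne
  have hinj : Function.Injective (fun i : Fin (k + 1) => w (i : ℕ)) := by
    intro a b hab
    have hab' : w (a : ℕ) = w (b : ℕ) := hab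
    rcases Nat.lt_trichotomy (a : ℕ) (b : ℕ) with h | h | h
    · exact absurd hab' (key a b h (by omega))
    · exact Fin.ext h
    · exact absurd hab'.symm (key b a h (by omega))
  have h := Fintype.card_le_of_injective _ hinj
  rw [Fintype.card_fin] at h
  omega

end Pool.Agent.helper4.EC

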